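import Mathlib

/-!
# Rapid Expansion does not imply property RD

The counterexample: the free group on the countable set `ℕ × Bool`, with the length function `L g` the
maximal number of occurrences of a single generator (with either sign) in the reduced word of `g`.

* `rapid_expansion`: if `L ≤ r` on `A`, then `|A| |X| ≤ 4 (1 + 4 r) |A⁻¹ X|`.
* `norm_psi`, `conv_psi`: functions on which the convolution by the indicator function of the set
  `S n` (on which `L ≤ 1`) is large.
-/

set_option autoImplicit false

namespace Pool.Agent.LibD581c5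

section Length

variable {α : Type} [DecidableEq α]

/-- Number of letters of the word `w` lying over the generator `a`. -/
def occ (a : α) (w : List (α × Bool)) : ℕ := w.countP (fun p => decide (p.1 = a))

theorem occ_nil (a : α) : occ a ([] : List (α × Bool)) = 0 := by simp [occ]

theorem occ_append (a : α) (v w : List (α × Bool)) : occ a (v ++ w) = occ a v + occ a w := by
  simp [occ, List.countP_append]

theorem occ_invRev (a : α) (w : List (α × Bool)) : occ a (FreeGroup.invRev w) = occ a w := by
  unfold occ FreeGroup.invRev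
  rw [List.countP_reverse, List.countP_map]
  rfl

theorem occ_sublist (a : α) {v w : List (α × Bool)} (h : v.Sublist w) : occ a v ≤ occ a w :=
  List.Sublist.countP_le h

/-- The maximal number of occurrences of a generator in the reduced word. -/
def len (g : FreeGroup α) : ℕ := g.toWord.toFinset.sup (fun p => occ p.1 g.toWord)

theorem occ_le_len (a : α) (g : FreeGroup α) : occ a g.toWord ≤ len g := by
  by_cases h : ∃ p ∈ g.toWord, p.1 = a
  · obtain ⟨p, hp, rfl⟩ := h
    exact Finset.le_sup (f := fun p : α × Bool => occ p.1 g.toWord) (List.mem_toFinset.2 hp)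
  · have : occ a g.toWord = 0 := by
      unfold occ
      rw [List.countP_eq_zero]
      intro p hp
      simp only [decide_eq_true_eq]
      exact fun h' => h ⟨p, hp, h'⟩
    omega

theorem len_le {g : FreeGroup α} {n : ℕ} (h : ∀ a, occ a g.toWord ≤ n) : len g ≤ n :=
  Finset.sup_le fun p _ => h p.1

theorem len_one : len (1 : FreeGroup α) = 0 := by
  have : len (1 : FreeGroup α) ≤ 0 := len_le (fun a => by simp [occ_nil])
  omega

theorem len_inv_le (g : FreeGroup α) : len g⁻¹ ≤ len g := by
  apply len_le
  intro a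
  rw [FreeGroup.toWord_inv, occ_invRev]
  exact occ_le_len a g

theorem len_inv (g : FreeGroup α) : len g⁻¹ = len g := by
  apply le_antisymm (len_inv_le g)
  have := len_inv_le g⁻¹
  rwa [inv_inv] at this

theorem len_mul (g h : FreeGroup α) : len (g * h) ≤ len g + len h := by
  apply len_le
  intro a
  calc occ a (g * h).toWord ≤ occ a (g.toWord ++ h.toWord) :=
        occ_sublist a (FreeGroup.toWord_mul_sublist g h)
    _ = occ a g.toWord + occ a h.toWord := occ_append a _ _
    _ ≤ len g + len h := Nat.add_le_add (occ_le_len a g) (occ_le_len a h)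

end Length

section Words

variable {α : Type} [DecidableEq α]

/-- Reduced concatenation. -/
theorem toWord_inv_mul_of_head {u w : FreeGroup α}
    (h : ∀ y, u.toWord.head? = some y → w.toWord.head? ≠ some y) :
    (u⁻¹ * w).toWord = (u⁻¹).toWord ++ w.toWord := by
  rw [FreeGroup.toWord_mul]
  apply FreeGroup.IsReduced.reduce_eq
  have hu : FreeGroup.IsReduced (u⁻¹).toWord := FreeGroup.isReduced_toWord
  have hw : FreeGroup.IsReduced w.toWord := FreeGroup.isReduced_toWord
  unfold FreeGroup.IsReduced at *
  rw [List.isChain_append]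
  refine ⟨hu, hw, ?_⟩
  intro x hx z hz hxz
  rw [FreeGroup.toWord_inv] at hx
  unfold FreeGroup.invRev at hx
  rw [List.getLast?_reverse, List.head?_map] at hx
  simp only [Option.mem_def, Option.map_eq_some_iff] at hx hz
  obtain ⟨y, hy, rfl⟩ := hx
  have := h y hy
  simp only at hxz ⊢
  by_contra hne
  apply this
  rw [hz]
  congr 1
  apply Prod.ext hxz.symm
  cases h1 : y.2 <;> cases h2 : z.2 <;> simp_all

theorem norm_letter_mul (y : α × Bool) (u : FreeGroup α) :
    FreeGroup.norm (FreeGroup.mk [(y.1, !y.2)] * u) + (if u.toWord.head? = some y then 2 else 0)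
      = FreeGroup.norm u + 1 := by
  have h1 : (FreeGroup.mk [(y.1, !y.2)] * u).toWord = FreeGroup.reduce ((y.1, !y.2) :: u.toWord) := by
    rw [FreeGroup.toWord_mul]
    rfl
  unfold FreeGroup.norm
  rw [h1, FreeGroup.reduce.cons, FreeGroup.reduce_toWord]
  cases hw : u.toWord with
  | nil => simp
  | cons hd tl =>
    simp only [Bool.not_inj_iff, List.head?_cons, Option.some.injEq]
    by_cases hy : hd = y
    · subst hy
      simp
    · have : ¬ (y.1 = hd.1 ∧ y.2 = hd.2) := fun h => hy (Prod.ext h.1.symm h.2.symm)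
      simp [hy, this]

theorem card_positions {β : Type} [DecidableEq β] [BEq β] [LawfulBEq β] (y : β) (l : List β) :
    ((Finset.range l.length).filter (fun k => l[k]? = some y)).card = l.count y := by
  induction l using List.reverseRecOn with
  | nil => simp
  | append_singleton l b ih =>
    rw [List.length_append, List.length_singleton, Finset.range_add_one, Finset.filter_insert,
      List.count_append]
    have h1 : (l ++ [b])[l.length]? = some b := by simp
    have h2 : (Finset.range l.length).filter (fun k => (l ++ [b])[k]? = some y)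
        = (Finset.range l.length).filter (fun k => l[k]? = some y) := by
      apply Finset.filter_congr
      intro k hk
      rw [Finset.mem_range] at hk
      rw [List.getElem?_append_left hk]
    rw [h1, h2]
    by_cases hb : b = y
    · subst hb
      simp [ih]
    · simp [hb, ih]

theorem sum_norm_letter (y : α × Bool) (d : FreeGroup α) (A : Finset (FreeGroup α)) :
    ∑ a ∈ A, FreeGroup.norm (FreeGroup.mk [(y.1, !y.2)] * d * a)
      + 2 * (A.filter (fun a => (d * a).toWord.head? = some y)).card
      = ∑ a ∈ A, FreeGroup.norm (d * a) + A.card := by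
  rw [Finset.card_filter, Finset.mul_sum, ← Finset.sum_add_distrib, Finset.card_eq_sum_ones,
    ← Finset.sum_add_distrib]
  apply Finset.sum_congr rfl
  intro a _
  have := norm_letter_mul y (d * a)
  rw [mul_assoc, ← this]
  split_ifs <;> simp

theorem exists_center (A X : Finset (FreeGroup α)) :
    ∃ d : FreeGroup α,
      (∀ y, (A.filter (fun a => (d * a).toWord.head? = some y)).card * X.card
        + (X.filter (fun x => (d * x).toWord.head? = some y)).card * A.card ≤ A.card * X.card) ∧
      (d = 1 ∨ ∃ y, d.toWord.head? = some y ∧ ∃ a ∈ A, (d * a).toWord.head? ≠ some y) := by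
  let F : FreeGroup α → ℕ := fun d =>
    2 * (X.card * ∑ a ∈ A, FreeGroup.norm (d * a) + A.card * ∑ x ∈ X, FreeGroup.norm (d * x))
      + FreeGroup.norm d
  obtain ⟨d, hd⟩ : ∃ d, ∀ d', F d ≤ F d' := by
    refine ⟨Function.argmin F, fun d' => Function.argmin_le F d'⟩
  have key : ∀ y : α × Bool,
      2 * (2 * ((A.filter (fun a => (d * a).toWord.head? = some y)).card * X.card
        + (X.filter (fun x => (d * x).toWord.head? = some y)).card * A.card))
        + (if d.toWord.head? = some y then 2 else 0) ≤ 4 * (A.card * X.card) + 1 := by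
    intro y
    have h1 := hd (FreeGroup.mk [(y.1, !y.2)] * d)
    have h2 := sum_norm_letter y d A
    have h3 := sum_norm_letter y d X
    have h4 := norm_letter_mul y d
    simp only [F] at h1
    set a := (A.filter (fun a => (d * a).toWord.head? = some y)).card
    set b := (X.filter (fun x => (d * x).toWord.head? = some y)).card
    set s1 := ∑ a ∈ A, FreeGroup.norm (FreeGroup.mk [(y.1, !y.2)] * d * a)
    set s2 := ∑ x ∈ X, FreeGroup.norm (FreeGroup.mk [(y.1, !y.2)] * d * x)
    set t1 := ∑ a ∈ A, FreeGroup.norm (d * a)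
    set t2 := ∑ x ∈ X, FreeGroup.norm (d * x)
    have h5 : X.card * s1 + 2 * (a * X.card) = X.card * t1 + A.card * X.card := by
      have : X.card * (s1 + 2 * a) = X.card * (t1 + A.card) := by rw [h2]
      nlinarith
    have h6 : A.card * s2 + 2 * (b * A.card) = A.card * t2 + A.card * X.card := by
      have : A.card * (s2 + 2 * b) = A.card * (t2 + X.card) := by rw [h3]
      nlinarith
    omega
  refine ⟨d, fun y => ?_, ?_⟩
  · have := key y
    split_ifs at this <;> omega
  · by_cases h1 : d = 1
    · exact Or.inl h1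
    · right
      cases hw : d.toWord with
      | nil => exact absurd (FreeGroup.toWord_eq_nil_iff.1 hw) h1
      | cons y tl =>
        refine ⟨y, by simp, ?_⟩
        by_contra hcon
        push Not at hcon
        have h2 := key y
        have h3 : (A.filter (fun a => (d * a).toWord.head? = some y)) = A :=
          Finset.filter_true_of_mem hcon
        rw [h3, hw] at h2
        simp only [List.head?_cons, if_true] at h2
        omega

theorem four_mul_le (a b : ℕ) : 4 * (a * b) ≤ (a + b) * (a + b) := by
  zify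
  nlinarith [sq_nonneg ((a : ℤ) - b)]

/-- Pairs with the same colour are at most half of all pairs. -/
theorem half_pairs {β γ Λ : Type} [DecidableEq Λ] [DecidableEq β] [DecidableEq γ] (A : Finset β) (X : Finset γ)
    (f : β → Option Λ) (g : γ → Option Λ)
    (h : ∀ y : Λ, (A.filter (fun a => f a = some y)).card * X.card
        + (X.filter (fun x => g x = some y)).card * A.card ≤ A.card * X.card) :
    2 * ((A ×ˢ X).filter (fun p => ∃ y, f p.1 = some y ∧ g p.2 = some y)).card ≤ A.card * X.card := by
  classical
  let Y : Finset Λ := (A.image f).biUnion (fun o => o.toFinset)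
  have hY : ∀ a ∈ A, ∀ y, f a = some y → y ∈ Y := by
    intro a ha y hy
    simp only [Y, Finset.mem_biUnion, Finset.mem_image]
    exact ⟨f a, ⟨a, ha, rfl⟩, by simp [hy]⟩
  set al : Λ → ℕ := fun y => (A.filter (fun a => f a = some y)).card with hal
  set be : Λ → ℕ := fun y => (X.filter (fun x => g x = some y)).card with hbe
  have h1 : ((A ×ˢ X).filter (fun p => ∃ y, f p.1 = some y ∧ g p.2 = some y)).card
      ≤ ∑ y ∈ Y, al y * be y := by
    calc ((A ×ˢ X).filter (fun p => ∃ y, f p.1 = some y ∧ g p.2 = some y)).card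
        ≤ (Y.biUnion (fun y => (A.filter (fun a => f a = some y)) ×ˢ
            (X.filter (fun x => g x = some y)))).card := by
          apply Finset.card_le_card
          intro p hp
          simp only [Finset.mem_filter, Finset.mem_product, Finset.mem_biUnion] at hp ⊢
          obtain ⟨⟨hp1, hp2⟩, y, hy1, hy2⟩ := hp
          exact ⟨y, hY _ hp1 y hy1, ⟨hp1, hy1⟩, ⟨hp2, hy2⟩⟩
      _ ≤ ∑ y ∈ Y, ((A.filter (fun a => f a = some y)) ×ˢ
            (X.filter (fun x => g x = some y))).card := Finset.card_biUnion_le
      _ = ∑ y ∈ Y, al y * be y := by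
          apply Finset.sum_congr rfl
          intro y _
          rw [Finset.card_product]
  have aux : ∀ {δ : Type} [DecidableEq δ] (Z : Finset δ) (k : δ → Option Λ),
      ∑ y ∈ Y, (Z.filter (fun a => k a = some y)).card ≤ Z.card := by
    intro δ _ Z k
    rw [← Finset.card_biUnion]
    · apply Finset.card_le_card
      intro z hz
      simp only [Finset.mem_biUnion, Finset.mem_filter] at hz
      obtain ⟨y, _, hz, _⟩ := hz
      exact hz
    · intro y _ y' _ hne
      rw [Function.onFun, Finset.disjoint_left]
      intro z hz hz'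
      simp only [Finset.mem_filter] at hz hz'
      rw [hz.2] at hz'
      exact hne (Option.some.inj hz'.2)
  have h2 : ∑ y ∈ Y, al y ≤ A.card := aux A f
  have h3 : ∑ y ∈ Y, be y ≤ X.card := aux X g
  set n := A.card
  set m := X.card
  have h4 : ∀ y, 4 * (n * m) * (al y * be y) ≤ (al y * m + be y * n) * (n * m) := by
    intro y
    have hy := h y
    have h5 : 4 * ((al y * m) * (be y * n)) ≤ (al y * m + be y * n) * (al y * m + be y * n) :=
      four_mul_le _ _
    calc 4 * (n * m) * (al y * be y) = 4 * ((al y * m) * (be y * n)) := by ring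
      _ ≤ (al y * m + be y * n) * (al y * m + be y * n) := h5
      _ ≤ (al y * m + be y * n) * (n * m) := Nat.mul_le_mul_left _ hy
  have h6 : 4 * (n * m) * ∑ y ∈ Y, al y * be y ≤ (2 * (n * m)) * (n * m) := by
    rw [Finset.mul_sum]
    calc ∑ y ∈ Y, 4 * (n * m) * (al y * be y) ≤ ∑ y ∈ Y, (al y * m + be y * n) * (n * m) :=
          Finset.sum_le_sum (fun y _ => h4 y)
      _ = ((∑ y ∈ Y, al y) * m + (∑ y ∈ Y, be y) * n) * (n * m) := by
          rw [← Finset.sum_mul, Finset.sum_add_distrib, Finset.sum_mul, Finset.sum_mul]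
      _ ≤ (n * m + m * n) * (n * m) := by gcongr
      _ = (2 * (n * m)) * (n * m) := by ring
  rcases Nat.eq_zero_or_pos (n * m) with h0 | hpos
  · have : (A ×ˢ X).card = 0 := by rw [Finset.card_product]; exact h0
    have h7 := Finset.card_filter_le (A ×ˢ X) (fun p => ∃ y, f p.1 = some y ∧ g p.2 = some y)
    omega
  · have h8 : (n * m) * (4 * ∑ y ∈ Y, al y * be y) ≤ (n * m) * (2 * (n * m)) := by
      calc (n * m) * (4 * ∑ y ∈ Y, al y * be y) = 4 * (n * m) * ∑ y ∈ Y, al y * be y := by ring
        _ ≤ (2 * (n * m)) * (n * m) := h6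
        _ = (n * m) * (2 * (n * m)) := by ring
    have h9 := Nat.le_of_mul_le_mul_left h8 hpos
    omega

/-- Cauchy–Schwarz for fibres. -/
theorem card_sq_le {β γ : Type} [DecidableEq β] [DecidableEq γ] (R : Finset β) (P : Finset γ) (Φ : β → γ)
    (hΦ : ∀ b ∈ R, Φ b ∈ P) :
    R.card ^ 2 ≤ P.card * ((R ×ˢ R).filter (fun q => Φ q.1 = Φ q.2)).card := by
  classical
  have h1 : R.card = ∑ c ∈ P, (R.filter (fun b => Φ b = c)).card :=
    Finset.card_eq_sum_card_fiberwise (fun b hb => hΦ b hb)
  have h2 : ((R ×ˢ R).filter (fun q => Φ q.1 = Φ q.2)).card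
      = ∑ c ∈ P, (R.filter (fun b => Φ b = c)).card ^ 2 := by
    rw [Finset.card_eq_sum_card_fiberwise (f := fun q => Φ q.1) (t := P)]
    · apply Finset.sum_congr rfl
      intro c _
      rw [sq, ← Finset.card_product]
      congr 1
      ext ⟨b, b'⟩
      simp only [Finset.mem_filter, Finset.mem_product]
      constructor
      · rintro ⟨⟨⟨h1, h2⟩, h3⟩, h4⟩
        exact ⟨⟨h1, h4⟩, ⟨h2, h3 ▸ h4⟩⟩
      · rintro ⟨⟨h1, h4⟩, ⟨h2, h3⟩⟩
        exact ⟨⟨⟨h1, h2⟩, h4.trans h3.symm⟩, h4⟩
    · intro q hq
      simp only [Finset.coe_filter, Finset.mem_product, Set.mem_ofPred_eq] at hq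
      exact hΦ _ hq.1.1
  rw [h1, h2]
  exact sq_sum_le_card_mul_sum_sq

/-- The pairs whose product is reduced at the centre `d`. -/
def good (d : FreeGroup α) (A X : Finset (FreeGroup α)) : Finset (FreeGroup α × FreeGroup α) :=
  (A ×ˢ X).filter (fun p => ∀ y, (d * p.1).toWord.head? = some y → (d * p.2).toWord.head? ≠ some y)

theorem toWord_good {d : FreeGroup α} {A X : Finset (FreeGroup α)} {p : FreeGroup α × FreeGroup α}
    (hp : p ∈ good d A X) :
    (p.1⁻¹ * p.2).toWord = ((d * p.1)⁻¹).toWord ++ (d * p.2).toWord := by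
  have h := (Finset.mem_filter.1 hp).2
  rw [← toWord_inv_mul_of_head h]
  congr 1
  group

theorem length_inv_toWord (g : FreeGroup α) : (g⁻¹).toWord.length = g.toWord.length := by
  rw [FreeGroup.toWord_inv]
  simp [FreeGroup.invRev]

theorem energy_lt (r : ℕ) (d : FreeGroup α) (A X : Finset (FreeGroup α))
    (hA : ∀ a ∈ A, ∀ y, ((d * a)⁻¹).toWord.count y ≤ r) :
    ((good d A X ×ˢ good d A X).filter (fun q => q.1.1⁻¹ * q.1.2 = q.2.1⁻¹ * q.2.2 ∧
      (d * q.2.1).toWord.length < (d * q.1.1).toWord.length)).card ≤ r * (A.card * X.card) := by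
  rw [← Finset.card_product]
  apply Finset.card_le_mul_card_image_of_maps_to
    (f := fun q : (FreeGroup α × FreeGroup α) × (FreeGroup α × FreeGroup α) => (q.1.1, q.2.2))
  · intro q hq
    simp only [Finset.mem_filter, Finset.mem_product, good] at hq ⊢
    exact ⟨hq.1.1.1.1, hq.1.2.1.2⟩
  · rintro ⟨a, x⟩ hax
    rw [Finset.mem_product] at hax
    rcases hx : (d * x).toWord.head? with _ | y
    · -- no quadruple at all
      convert Nat.zero_le r
      rw [Finset.card_eq_zero, Finset.filter_eq_empty_iff]
      rintro ⟨⟨a1, x1⟩, ⟨a2, x2⟩⟩ hq heq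
      simp only [Finset.mem_filter, Finset.mem_product, Prod.mk.injEq] at hq heq
      obtain ⟨⟨h1, h2⟩, h3, h4⟩ := hq
      obtain ⟨rfl, rfl⟩ := heq
      have e1 := toWord_good h1
      have e2 := toWord_good h2
      simp only at e1 e2
      rw [h3, e2] at e1
      rw [List.head?_eq_none_iff] at hx
      rw [hx, List.append_nil] at e1
      have := congrArg List.length e1
      rw [List.length_append, length_inv_toWord, length_inv_toWord] at this
      omega
    · refine le_trans ?_ (hA a hax.1 y)
      rw [← card_positions]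
      apply Finset.card_le_card_of_injOn (fun q => (d * q.2.1).toWord.length)
      · rintro ⟨⟨a1, x1⟩, ⟨a2, x2⟩⟩ hq
        simp only [Finset.coe_filter, Finset.mem_filter, Finset.mem_product, Prod.mk.injEq,
          Set.mem_ofPred_eq] at hq
        obtain ⟨⟨⟨h1, h2⟩, h3, h4⟩, rfl, rfl⟩ := hq
        have e1 := toWord_good h1
        have e2 := toWord_good h2
        simp only at e1 e2
        rw [h3, e2] at e1
        simp only [Finset.coe_filter, Finset.mem_range, Set.mem_ofPred_eq]
        rw [length_inv_toWord]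
        refine ⟨h4, ?_⟩
        have h5 : (((d * a1)⁻¹).toWord ++ (d * x1).toWord)[(d * a2).toWord.length]?
            = ((d * a1)⁻¹).toWord[(d * a2).toWord.length]? :=
          List.getElem?_append_left (by rw [length_inv_toWord]; exact h4)
        rw [← h5, ← e1, List.getElem?_append_right (by rw [length_inv_toWord]), length_inv_toWord,
          Nat.sub_self, ← List.head?_eq_getElem?]
        exact hx
      · rintro ⟨⟨a1, x1⟩, ⟨a2, x2⟩⟩ hq ⟨⟨a1', x1'⟩, ⟨a2', x2'⟩⟩ hq' hlen
        simp only [Finset.coe_filter, Finset.mem_filter, Finset.mem_product, Prod.mk.injEq,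
          Set.mem_ofPred_eq] at hq hq' hlen
        obtain ⟨⟨⟨h1, h2⟩, h3, h4⟩, rfl, rfl⟩ := hq
        obtain ⟨⟨⟨h1', h2'⟩, h3', h4'⟩, rfl, rfl⟩ := hq'
        have e1 := toWord_good h1
        have e2 := toWord_good h2
        have e1' := toWord_good h1'
        have e2' := toWord_good h2'
        simp only at e1 e2 e1' e2'
        rw [h3, e2] at e1
        rw [h3', e2'] at e1'
        have t1 : ((d * a2)⁻¹).toWord = ((d * a1')⁻¹).toWord.take (d * a2).toWord.length := by
          have := congrArg (List.take (d * a2).toWord.length) e1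
          rwa [List.take_append_of_le_length (by rw [length_inv_toWord]),
            List.take_append_of_le_length (by rw [length_inv_toWord]; omega),
            List.take_of_length_le (by rw [length_inv_toWord])] at this
        have t2 : ((d * a2')⁻¹).toWord = ((d * a1')⁻¹).toWord.take (d * a2').toWord.length := by
          have := congrArg (List.take (d * a2').toWord.length) e1'
          rwa [List.take_append_of_le_length (by rw [length_inv_toWord]),
            List.take_append_of_le_length (by rw [length_inv_toWord]; omega),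
            List.take_of_length_le (by rw [length_inv_toWord])] at this
        rw [hlen, ← t2] at t1
        have t3 : a2 = a2' := by
          have := FreeGroup.toWord_injective t1
          simpa using this
        subst t3
        have t4 : x1 = x1' := by
          have := h3.trans h3'.symm
          simpa using this
        subst t4
        rfl

theorem energy_le (r : ℕ) (d : FreeGroup α) (A X : Finset (FreeGroup α))
    (hA : ∀ a ∈ A, ∀ y, ((d * a)⁻¹).toWord.count y ≤ r) :
    ((good d A X ×ˢ good d A X).filter (fun q => q.1.1⁻¹ * q.1.2 = q.2.1⁻¹ * q.2.2)).card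
      ≤ (1 + 2 * r) * (A.card * X.card) := by
  have h1 := energy_lt r d A X hA
  have h2 : ((good d A X ×ˢ good d A X).filter (fun q => q.1.1⁻¹ * q.1.2 = q.2.1⁻¹ * q.2.2 ∧
      (d * q.1.1).toWord.length < (d * q.2.1).toWord.length)).card ≤ r * (A.card * X.card) := by
    refine le_trans (Finset.card_le_card_of_injOn Prod.swap ?_ ?_) h1
    · rintro ⟨p, p'⟩ hq
      simp only [Finset.coe_filter, Finset.mem_product, Set.mem_ofPred_eq, Prod.fst_swap,
        Prod.snd_swap] at hq ⊢
      exact ⟨⟨hq.1.2, hq.1.1⟩, hq.2.1.symm, hq.2.2⟩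
    · exact Prod.swap_injective.injOn
  have h3 : ((good d A X ×ˢ good d A X).filter (fun q => q.1.1⁻¹ * q.1.2 = q.2.1⁻¹ * q.2.2 ∧
      (d * q.1.1).toWord.length = (d * q.2.1).toWord.length)).card ≤ A.card * X.card := by
    calc ((good d A X ×ˢ good d A X).filter (fun q => q.1.1⁻¹ * q.1.2 = q.2.1⁻¹ * q.2.2 ∧
      (d * q.1.1).toWord.length = (d * q.2.1).toWord.length)).card ≤ (good d A X).card := by
          apply Finset.card_le_card_of_injOn Prod.fst
          · rintro ⟨p, p'⟩ hq
            simp only [Finset.coe_filter, Finset.mem_product, Set.mem_ofPred_eq] at hq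
            exact hq.1.1
          · rintro ⟨⟨a1, x1⟩, ⟨a2, x2⟩⟩ hq ⟨⟨a1', x1'⟩, ⟨a2', x2'⟩⟩ hq' heq
            simp only [Finset.coe_filter, Finset.mem_product,
              Set.mem_ofPred_eq, Prod.mk.injEq] at hq hq' heq
            obtain ⟨rfl, rfl⟩ := heq
            obtain ⟨⟨h1, h2⟩, h3, h4⟩ := hq
            obtain ⟨⟨h1', h2'⟩, h3', h4'⟩ := hq'
            have e1 := toWord_good h1
            have e2 := toWord_good h2
            have e2' := toWord_good h2'
            simp only at e1 e2 e2'
            rw [← h3, e1] at e2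
            rw [← h3', e1] at e2'
            obtain ⟨k1, k2⟩ := List.append_inj e2 (by rw [length_inv_toWord, length_inv_toWord, h4])
            obtain ⟨k1', k2'⟩ := List.append_inj e2' (by rw [length_inv_toWord, length_inv_toWord, h4'])
            have m1 : a2 = a2' := by
              have := FreeGroup.toWord_injective (k1.symm.trans k1')
              simpa using this
            have m2 : x2 = x2' := by
              have := FreeGroup.toWord_injective (k2.symm.trans k2')
              simpa using this
            subst m1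
            subst m2
            rfl
      _ ≤ (A ×ˢ X).card := Finset.card_filter_le _ _
      _ = A.card * X.card := Finset.card_product _ _
  have h4 : ((good d A X ×ˢ good d A X).filter (fun q => q.1.1⁻¹ * q.1.2 = q.2.1⁻¹ * q.2.2))
      ⊆ ((good d A X ×ˢ good d A X).filter (fun q => q.1.1⁻¹ * q.1.2 = q.2.1⁻¹ * q.2.2 ∧
      (d * q.2.1).toWord.length < (d * q.1.1).toWord.length))
      ∪ (((good d A X ×ˢ good d A X).filter (fun q => q.1.1⁻¹ * q.1.2 = q.2.1⁻¹ * q.2.2 ∧
      (d * q.1.1).toWord.length < (d * q.2.1).toWord.length))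
      ∪ ((good d A X ×ˢ good d A X).filter (fun q => q.1.1⁻¹ * q.1.2 = q.2.1⁻¹ * q.2.2 ∧
      (d * q.1.1).toWord.length = (d * q.2.1).toWord.length))) := by
    intro q hq
    simp only [Finset.mem_filter, Finset.mem_union] at hq ⊢
    rcases lt_trichotomy (d * q.1.1).toWord.length (d * q.2.1).toWord.length with h | h | h
    · exact Or.inr (Or.inl ⟨hq.1, hq.2, h⟩)
    · exact Or.inr (Or.inr ⟨hq.1, hq.2, h⟩)
    · exact Or.inl ⟨hq.1, hq.2, h⟩
  have h5 := Finset.card_le_card h4
  have h6 := Finset.card_union_le ((good d A X ×ˢ good d A X).filter (fun q => q.1.1⁻¹ * q.1.2 = q.2.1⁻¹ * q.2.2 ∧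
      (d * q.2.1).toWord.length < (d * q.1.1).toWord.length))
      (((good d A X ×ˢ good d A X).filter (fun q => q.1.1⁻¹ * q.1.2 = q.2.1⁻¹ * q.2.2 ∧
      (d * q.1.1).toWord.length < (d * q.2.1).toWord.length))
      ∪ ((good d A X ×ˢ good d A X).filter (fun q => q.1.1⁻¹ * q.1.2 = q.2.1⁻¹ * q.2.2 ∧
      (d * q.1.1).toWord.length = (d * q.2.1).toWord.length)))
  have h7 := Finset.card_union_le ((good d A X ×ˢ good d A X).filter (fun q => q.1.1⁻¹ * q.1.2 = q.2.1⁻¹ * q.2.2 ∧
      (d * q.1.1).toWord.length < (d * q.2.1).toWord.length))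
      ((good d A X ×ˢ good d A X).filter (fun q => q.1.1⁻¹ * q.1.2 = q.2.1⁻¹ * q.2.2 ∧
      (d * q.1.1).toWord.length = (d * q.2.1).toWord.length))
  have h8 : (1 + 2 * r) * (A.card * X.card) = A.card * X.card + r * (A.card * X.card) + r * (A.card * X.card) := by ring
  rw [h8]
  omega

/-- Rapid Expansion for the length function `len`. -/
theorem rapid_expansion (r : ℕ) (A X P : Finset (FreeGroup α)) (hA : ∀ a ∈ A, len a ≤ r)
    (hP : ∀ a ∈ A, ∀ x ∈ X, a⁻¹ * x ∈ P) :
    A.card * X.card ≤ 4 * (1 + 4 * r) * P.card := by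
  obtain ⟨d, hd1, hd2⟩ := exists_center A X
  have hdlen : len d ≤ r := by
    rcases hd2 with rfl | ⟨y, hy, a, ha, hay⟩
    · rw [len_one]; exact Nat.zero_le _
    · refine le_trans (len_le fun b => ?_) (hA a ha)
      have h1 : (d⁻¹ * (d * a)).toWord = (d⁻¹).toWord ++ (d * a).toWord := by
        apply toWord_inv_mul_of_head
        intro z hz hz'
        rw [hy] at hz
        cases hz
        exact hay hz'
      rw [inv_mul_cancel_left] at h1
      calc occ b d.toWord = occ b (d⁻¹).toWord := by rw [FreeGroup.toWord_inv, occ_invRev]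
        _ ≤ occ b (d⁻¹).toWord + occ b (d * a).toWord := Nat.le_add_right _ _
        _ = occ b a.toWord := by rw [h1, occ_append]
        _ ≤ len a := occ_le_len b a
  have hcount : ∀ a ∈ A, ∀ y, ((d * a)⁻¹).toWord.count y ≤ 2 * r := by
    intro a ha y
    calc ((d * a)⁻¹).toWord.count y ≤ occ y.1 ((d * a)⁻¹).toWord := by
          unfold occ List.count
          apply List.countP_mono_left
          intro p _ hp
          have := eq_of_beq hp
          subst this
          simp
      _ ≤ len ((d * a)⁻¹) := occ_le_len _ _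
      _ = len (d * a) := len_inv _
      _ ≤ len d + len a := len_mul _ _
      _ ≤ 2 * r := by have := hA a ha; omega
  have hE := energy_le (2 * r) d A X hcount
  have hhalf := half_pairs A X (fun a => (d * a).toWord.head?) (fun x => (d * x).toWord.head?) hd1
  have hsplit : (good d A X).card + ((A ×ˢ X).filter (fun p : FreeGroup α × FreeGroup α =>
      ∃ y, (d * p.1).toWord.head? = some y ∧
      (d * p.2).toWord.head? = some y)).card = A.card * X.card := by
    rw [← Finset.card_product]
    have h1 : (A ×ˢ X).filter (fun p : FreeGroup α × FreeGroup α =>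
        ∃ y, (d * p.1).toWord.head? = some y ∧ (d * p.2).toWord.head? = some y)
        = (A ×ˢ X).filter (fun p : FreeGroup α × FreeGroup α =>
          ¬ ∀ y, (d * p.1).toWord.head? = some y → (d * p.2).toWord.head? ≠ some y) := by
      apply Finset.filter_congr
      intro p _
      push Not
      rfl
    rw [h1]
    exact Finset.card_filter_add_card_filter_not _
  have hCS := card_sq_le (good d A X) P (fun p => p.1⁻¹ * p.2) (by
    intro p hp
    have := (Finset.mem_filter.1 hp).1
    rw [Finset.mem_product] at this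
    exact hP _ this.1 _ this.2)
  set nm := A.card * X.card
  have h2 : nm ≤ 2 * (good d A X).card := by omega
  have h3 : nm * nm ≤ nm * (4 * (1 + 4 * r) * P.card) := by
    calc nm * nm ≤ (2 * (good d A X).card) * (2 * (good d A X).card) := Nat.mul_le_mul h2 h2
      _ = 4 * (good d A X).card ^ 2 := by ring
      _ ≤ 4 * (P.card * ((1 + 2 * (2 * r)) * nm)) :=
          Nat.mul_le_mul_left _ (hCS.trans (Nat.mul_le_mul_left _ hE))
      _ = nm * (4 * (1 + 4 * r) * P.card) := by ring
  rcases Nat.eq_zero_or_pos nm with h0 | hpos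
  · rw [h0]; exact Nat.zero_le _
  · exact Nat.le_of_mul_le_mul_left h3 hpos

end Words

abbrev Gp : Type := FreeGroup (ℕ × Bool)

/-- `S n` : the words `x_{n-1} ⋯ x_0` with `x_i` one of the two generators of level `i`. -/
def S : ℕ → Finset Gp
  | 0 => {1}
  | n + 1 => (S n).image (fun s => FreeGroup.of (n, false) * s) ∪
      (S n).image (fun s => FreeGroup.of (n, true) * s)

/-- the new products at level `n` -/
def T (n : ℕ) : Finset Gp :=
  (S n ×ˢ S n).image (fun p => (FreeGroup.of (n, false) * p.1)⁻¹ * (FreeGroup.of (n, true) * p.2)) ∪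
  (S n ×ˢ S n).image (fun p => (FreeGroup.of (n, true) * p.1)⁻¹ * (FreeGroup.of (n, false) * p.2))

def B : ℕ → Finset Gp
  | 0 => {1}
  | n + 1 => B n ∪ T n

noncomputable def psi : ℕ → Gp → ℝ
  | 0 => fun z => if z = 1 then 1 else 0
  | n + 1 => fun z => psi n z + if z ∈ T n then 1 / (2 * ((S n).card : ℝ)) else 0

/-- detects the generator `(m, true)` -/
noncomputable def hm (m : ℕ) : Gp →* Multiplicative ℤ :=
  FreeGroup.lift (fun p : ℕ × Bool => if p = (m, true) then Multiplicative.ofAdd (1 : ℤ) else 1)

theorem hm_of (m : ℕ) (p : ℕ × Bool) :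
    hm m (FreeGroup.of p) = if p = (m, true) then Multiplicative.ofAdd (1 : ℤ) else 1 := by
  simp [hm]

theorem mem_S_succ {n : ℕ} {z : Gp} :
    z ∈ S (n + 1) ↔ ∃ c, ∃ s ∈ S n, FreeGroup.of (n, c) * s = z := by
  simp only [S, Finset.mem_union, Finset.mem_image]
  constructor
  · rintro (⟨s, hs, rfl⟩ | ⟨s, hs, rfl⟩)
    · exact ⟨false, s, hs, rfl⟩
    · exact ⟨true, s, hs, rfl⟩
  · rintro ⟨c, s, hs, rfl⟩
    cases c
    · exact Or.inl ⟨s, hs, rfl⟩
    · exact Or.inr ⟨s, hs, rfl⟩

theorem mem_T {n : ℕ} {z : Gp} :
    z ∈ T n ↔ ∃ c, ∃ s ∈ S n, ∃ t ∈ S n,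
      (FreeGroup.of (n, c) * s)⁻¹ * (FreeGroup.of (n, !c) * t) = z := by
  simp only [T, Finset.mem_union, Finset.mem_image, Finset.mem_product, Prod.exists]
  constructor
  · rintro (⟨s, t, ⟨hs, ht⟩, rfl⟩ | ⟨s, t, ⟨hs, ht⟩, rfl⟩)
    · exact ⟨false, s, hs, t, ht, rfl⟩
    · exact ⟨true, s, hs, t, ht, rfl⟩
  · rintro ⟨c, s, hs, t, ht, rfl⟩
    cases c
    · exact Or.inl ⟨s, t, ⟨hs, ht⟩, rfl⟩
    · exact Or.inr ⟨s, t, ⟨hs, ht⟩, rfl⟩

theorem hm_S {n : ℕ} {s : Gp} (hs : s ∈ S n) {m : ℕ} (hm' : n ≤ m) : hm m s = 1 := by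
  induction n generalizing s with
  | zero =>
    simp only [S, Finset.mem_singleton] at hs
    rw [hs, map_one]
  | succ n ih =>
    obtain ⟨c, t, ht, rfl⟩ := mem_S_succ.1 hs
    rw [map_mul, ih ht (by omega), hm_of, if_neg, one_mul]
    intro h
    have := congrArg Prod.fst h
    simp only at this
    omega

theorem hm_T {n : ℕ} {z : Gp} (hz : z ∈ T n) {m : ℕ} (hm' : n < m) : hm m z = 1 := by
  obtain ⟨c, s, hs, t, ht, rfl⟩ := mem_T.1 hz
  have h1 : ∀ c, ¬ ((n, c) = ((m, true) : ℕ × Bool)) := by
    intro c h
    have := congrArg Prod.fst h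
    simp only at this
    omega
  rw [map_mul, map_inv, map_mul, map_mul, hm_S hs hm'.le, hm_S ht hm'.le, hm_of, hm_of,
    if_neg (h1 _), if_neg (h1 _)]
  simp

theorem hm_T_self {n : ℕ} {z : Gp} (hz : z ∈ T n) : hm n z ≠ 1 := by
  obtain ⟨c, s, hs, t, ht, rfl⟩ := mem_T.1 hz
  rw [map_mul, map_inv, map_mul, map_mul, hm_S hs le_rfl, hm_S ht le_rfl, hm_of, hm_of]
  cases c
  · simp
  · simp

theorem hm_B {n : ℕ} {z : Gp} (hz : z ∈ B n) {m : ℕ} (hm' : n ≤ m) : hm m z = 1 := by
  induction n with
  | zero =>
    simp only [B, Finset.mem_singleton] at hz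
    rw [hz, map_one]
  | succ n ih =>
    simp only [B, Finset.mem_union] at hz
    rcases hz with hz | hz
    · exact ih hz (by omega)
    · exact hm_T hz (by omega)

theorem disjoint_B_T (n : ℕ) : Disjoint (B n) (T n) := by
  rw [Finset.disjoint_left]
  intro z hz hz'
  exact hm_T_self hz' (hm_B hz le_rfl)

theorem psi_nonneg (n : ℕ) (z : Gp) : 0 ≤ psi n z := by
  induction n with
  | zero => simp only [psi]; split_ifs <;> norm_num
  | succ n ih =>
    simp only [psi]
    split_ifs
    · positivity
    · simpa using ih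

theorem psi_eq_zero {n : ℕ} {z : Gp} (hz : z ∉ B n) : psi n z = 0 := by
  induction n with
  | zero =>
    simp only [B, Finset.mem_singleton] at hz
    simp [psi, hz]
  | succ n ih =>
    simp only [B, Finset.mem_union, not_or] at hz
    simp [psi, ih hz.1, hz.2]

theorem S_nonempty (n : ℕ) : (S n).Nonempty := by
  induction n with
  | zero => exact ⟨1, by simp [S]⟩
  | succ n ih =>
    obtain ⟨s, hs⟩ := ih
    exact ⟨_, mem_S_succ.2 ⟨false, s, hs, rfl⟩⟩

theorem one_mem_B (n : ℕ) : (1 : Gp) ∈ B n := by
  induction n with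
  | zero => simp [B]
  | succ n ih => simp [B, ih]

theorem inv_mul_mem_B {n : ℕ} {s t : Gp} (hs : s ∈ S n) (ht : t ∈ S n) : s⁻¹ * t ∈ B n := by
  induction n generalizing s t with
  | zero =>
    simp only [S, Finset.mem_singleton] at hs ht
    simp [hs, ht, B]
  | succ n ih =>
    obtain ⟨c, s', hs', rfl⟩ := mem_S_succ.1 hs
    obtain ⟨c', t', ht', rfl⟩ := mem_S_succ.1 ht
    simp only [B, Finset.mem_union]
    by_cases h : c' = c
    · subst h
      left
      have : (FreeGroup.of (n, c') * s')⁻¹ * (FreeGroup.of (n, c') * t') = s'⁻¹ * t' := by group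
      rw [this]
      exact ih hs' ht'
    · right
      have h' : c' = !c := by cases c <;> cases c' <;> simp_all
      subst h'
      exact mem_T.2 ⟨c, s', hs', t', ht', rfl⟩

theorem norm_psi (n : ℕ) : ∑ z ∈ B n, psi n z ^ 2 ≤ 1 + (n : ℝ) / 2 := by
  induction n with
  | zero => simp [B, psi]
  | succ n ih =>
    simp only [B]
    rw [Finset.sum_union (disjoint_B_T n)]
    have h1 : ∑ z ∈ B n, psi (n + 1) z ^ 2 = ∑ z ∈ B n, psi n z ^ 2 := by
      apply Finset.sum_congr rfl
      intro z hz
      have : z ∉ T n := Finset.disjoint_left.1 (disjoint_B_T n) hz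
      simp [psi, this]
    have h2 : ∑ z ∈ T n, psi (n + 1) z ^ 2 ≤ 1 / 2 := by
      have hc : (0 : ℝ) < (S n).card := by exact_mod_cast (S_nonempty n).card_pos
      calc ∑ z ∈ T n, psi (n + 1) z ^ 2 = ∑ z ∈ T n, (1 / (2 * ((S n).card : ℝ))) ^ 2 := by
            apply Finset.sum_congr rfl
            intro z hz
            have : z ∉ B n := Finset.disjoint_right.1 (disjoint_B_T n) hz
            simp [psi, hz, psi_eq_zero this]
        _ = (T n).card * (1 / (2 * ((S n).card : ℝ))) ^ 2 := by
            rw [Finset.sum_const, nsmul_eq_mul]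
        _ ≤ (2 * ((S n).card : ℝ) ^ 2) * (1 / (2 * ((S n).card : ℝ))) ^ 2 := by
            gcongr
            have h3 : (T n).card ≤ 2 * (S n).card ^ 2 := by
              unfold T
              refine (Finset.card_union_le _ _).trans ?_
              have e1 := Finset.card_image_le (s := S n ×ˢ S n) (f := fun p : Gp × Gp =>
                (FreeGroup.of (n, false) * p.1)⁻¹ * (FreeGroup.of (n, true) * p.2))
              have e2 := Finset.card_image_le (s := S n ×ˢ S n) (f := fun p : Gp × Gp =>
                (FreeGroup.of (n, true) * p.1)⁻¹ * (FreeGroup.of (n, false) * p.2))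
              rw [Finset.card_product] at e1 e2
              rw [sq]
              omega
            exact_mod_cast h3
        _ = 1 / 2 := by
            field_simp
    rw [h1]
    push_cast
    linarith

theorem conv_psi (n : ℕ) {y : Gp} (hy : y ∈ S n) : 1 + (n : ℝ) / 2 ≤ ∑ s ∈ S n, psi n (s⁻¹ * y) := by
  induction n generalizing y with
  | zero =>
    simp only [S, Finset.mem_singleton] at hy
    simp [S, psi, hy]
  | succ n ih =>
    obtain ⟨c, t, ht, rfl⟩ := mem_S_succ.1 hy
    have hsub : (S n).image (fun s => FreeGroup.of (n, c) * s) ∪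
        (S n).image (fun s => FreeGroup.of (n, !c) * s) ⊆ S (n + 1) := by
      intro z hz
      simp only [Finset.mem_union, Finset.mem_image] at hz
      rcases hz with ⟨s, hs, rfl⟩ | ⟨s, hs, rfl⟩
      · exact mem_S_succ.2 ⟨c, s, hs, rfl⟩
      · exact mem_S_succ.2 ⟨_, s, hs, rfl⟩
    have hdisj : Disjoint ((S n).image (fun s => FreeGroup.of (n, c) * s))
        ((S n).image (fun s => FreeGroup.of (n, !c) * s)) := by
      rw [Finset.disjoint_left]
      intro z hz hz'
      simp only [Finset.mem_image] at hz hz'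
      obtain ⟨s, hs, rfl⟩ := hz
      obtain ⟨s', hs', h⟩ := hz'
      have := congrArg (hm n) h
      rw [map_mul, map_mul, hm_S hs le_rfl, hm_S hs' le_rfl, hm_of, hm_of] at this
      cases c
      · simp at this
      · have h2 := this.symm
        simp at h2
    have hc : (0 : ℝ) < (S n).card := by exact_mod_cast (S_nonempty n).card_pos
    calc 1 + ((n + 1 : ℕ) : ℝ) / 2 = (1 + (n : ℝ) / 2) + 1 / 2 := by push_cast; ring
      _ ≤ ∑ s ∈ S n, psi (n + 1) ((FreeGroup.of (n, c) * s)⁻¹ * (FreeGroup.of (n, c) * t))
          + ∑ s ∈ S n, psi (n + 1) ((FreeGroup.of (n, !c) * s)⁻¹ * (FreeGroup.of (n, c) * t)) := by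
          apply add_le_add
          · refine (ih ht).trans (Finset.sum_le_sum ?_)
            intro s hs
            have : (FreeGroup.of (n, c) * s)⁻¹ * (FreeGroup.of (n, c) * t) = s⁻¹ * t := by group
            rw [this]
            simp only [psi]
            split_ifs
            · have : 0 ≤ 1 / (2 * ((S n).card : ℝ)) := by positivity
              linarith
            · linarith
          · calc (1 : ℝ) / 2 = ∑ s ∈ S n, 1 / (2 * ((S n).card : ℝ)) := by
                  rw [Finset.sum_const, nsmul_eq_mul]
                  field_simp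
              _ ≤ _ := by
                  apply Finset.sum_le_sum
                  intro s hs
                  have : (FreeGroup.of (n, !c) * s)⁻¹ * (FreeGroup.of (n, c) * t) ∈ T n :=
                    mem_T.2 ⟨!c, s, hs, t, ht, by simp⟩
                  simp only [psi, this, if_true]
                  have := psi_nonneg n ((FreeGroup.of (n, !c) * s)⁻¹ * (FreeGroup.of (n, c) * t))
                  linarith
      _ = ∑ s ∈ (S n).image (fun s => FreeGroup.of (n, c) * s) ∪
        (S n).image (fun s => FreeGroup.of (n, !c) * s), psi (n + 1) (s⁻¹ * (FreeGroup.of (n, c) * t)) := by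
          rw [Finset.sum_union hdisj, Finset.sum_image, Finset.sum_image]
          · exact fun a _ b _ h => mul_left_cancel h
          · exact fun a _ b _ h => mul_left_cancel h
      _ ≤ ∑ s ∈ S (n + 1), psi (n + 1) (s⁻¹ * (FreeGroup.of (n, c) * t)) :=
          Finset.sum_le_sum_of_subset_of_nonneg hsub (fun _ _ _ => psi_nonneg _ _)


/-- every element of `S n` has length at most one -/
theorem occ_S {n : ℕ} {s : Gp} (hs : s ∈ S n) (a : ℕ × Bool) :
    occ a s.toWord ≤ 1 ∧ (n ≤ a.1 → occ a s.toWord = 0) := by
  induction n generalizing s with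
  | zero =>
    simp only [S, Finset.mem_singleton] at hs
    subst hs
    simp [occ_nil]
  | succ n ih =>
    obtain ⟨c, t, ht, rfl⟩ := mem_S_succ.1 hs
    obtain ⟨h1, h2⟩ := ih ht
    have h3 : occ a (FreeGroup.of (n, c) * t).toWord ≤ occ a ((FreeGroup.of (n, c)).toWord ++ t.toWord) :=
      occ_sublist a (FreeGroup.toWord_mul_sublist _ _)
    rw [occ_append, FreeGroup.toWord_of] at h3
    by_cases h : (n, c) = a
    · subst h
      have h4 : occ (n, c) [((n, c), true)] = 1 := by simp [occ]
      have h5 := h2 le_rfl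
      rw [h4, h5] at h3
      refine ⟨by omega, fun h6 => ?_⟩
      simp only at h6
      omega
    · have h4 : occ a [((n, c), true)] = 0 := by simp [occ, h]
      rw [h4] at h3
      refine ⟨by omega, fun h6 => ?_⟩
      have := h2 (by omega)
      omega

theorem len_S {n : ℕ} {s : Gp} (hs : s ∈ S n) : len s ≤ 1 := len_le (fun a => (occ_S hs a).1)

end Pool.Agent.LibD581c5
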